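import Pool.Agent.H59.L.S8.Y506.FF.Stm

/-!
# Decomposition of the volume along orthogonal ranges (S_DEC, S_CPL), project FF of helper506
-/

set_option autoImplicit false

namespace Pool.Agent.Y67.FF

open MeasureTheory Pool.Agent.Y506.FF
open scoped ENNReal InnerProductSpace
open Pool.Agent.W695.KH (Eu)

section

variable {ι : Type} [Fintype ι] {n d : ℕ}

/-- the first part of the coordinates -/
def fstL (y : Eu (Fin n ⊕ Fin d)) : Eu (Fin n) := WithLp.toLp 2 fun i => y (Sum.inl i)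

/-- the second part of the coordinates -/
def sndL (y : Eu (Fin n ⊕ Fin d)) : Eu (Fin d) := WithLp.toLp 2 fun i => y (Sum.inr i)

/-- the two isometries together -/
noncomputable def TT (L : Eu (Fin n) →ₗᵢ[ℝ] Eu ι) (M : Eu (Fin d) →ₗᵢ[ℝ] Eu ι) (h : Pair L M) :
    Eu (Fin n ⊕ Fin d) →ₗᵢ[ℝ] Eu ι where
  toFun y := L (fstL y) + M (sndL y)
  map_add' x y := by
    have h1 : fstL (x + y) = fstL x + fstL y := rfl
    have h2 : sndL (x + y) = sndL x + sndL y := rfl
    rw [h1, h2, map_add, map_add]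
    abel
  map_smul' c y := by
    have h1 : fstL (c • y) = c • fstL y := rfl
    have h2 : sndL (c • y) = c • sndL y := rfl
    rw [h1, h2, map_smul, map_smul, RingHom.id_apply, smul_add]
  norm_map' y := by
    have h1 : ‖L (fstL y) + M (sndL y)‖ ^ 2 = ‖y‖ ^ 2 := by
      rw [norm_add_sq_real, h.orth, L.norm_map, M.norm_map, EuclideanSpace.real_norm_sq_eq,
        EuclideanSpace.real_norm_sq_eq, EuclideanSpace.real_norm_sq_eq, Fintype.sum_sum_type]
      simp [fstL, sndL]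
    have h2 : ‖L (fstL y) + M (sndL y)‖ = ‖y‖ := by
      have := abs_eq_abs.mpr (sq_eq_sq_iff_eq_or_eq_neg.mp h1)
      rwa [abs_of_nonneg (norm_nonneg _), abs_of_nonneg (norm_nonneg _)] at this
    exact h2

end

theorem dec : S_DEC := by
  intro ι _ n d L M hP
  have hfr : Module.finrank ℝ (Eu (Fin n ⊕ Fin d)) = Module.finrank ℝ (Eu ι) := by
    rw [finrank_euclideanSpace, finrank_euclideanSpace, Fintype.card_sum, Fintype.card_fin,
      Fintype.card_fin, hP.card]
  set T : Eu (Fin n ⊕ Fin d) ≃ₗᵢ[ℝ] Eu ι := (TT L M hP).toLinearIsometryEquiv hfr with hT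
  have hTy : ∀ y, T y = L (fstL y) + M (sndL y) := fun y => rfl
  refine ⟨fun s => ⟨fstL (T.symm s), sndL (T.symm s), ?_⟩, fun F hF => ?_⟩
  · rw [← hTy, LinearIsometryEquiv.apply_symm_apply]
  · have hmp : MeasurePreserving (fun p : (Fin n → ℝ) × (Fin d → ℝ) =>
        T (WithLp.toLp 2 ((MeasurableEquiv.sumPiEquivProdPi fun _ : Fin n ⊕ Fin d => ℝ).symm p)))
        volume volume :=
      T.measurePreserving.comp ((PiLp.volume_preserving_toLp (Fin n ⊕ Fin d)).comp
        (volume_measurePreserving_sumPiEquivProdPi_symm fun _ : Fin n ⊕ Fin d => ℝ))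
    rw [← hmp.lintegral_comp hF]
    have h1 : ∀ p : (Fin n → ℝ) × (Fin d → ℝ),
        T (WithLp.toLp 2 ((MeasurableEquiv.sumPiEquivProdPi fun _ : Fin n ⊕ Fin d => ℝ).symm p)) =
        L (WithLp.toLp 2 p.1) + M (WithLp.toLp 2 p.2) := fun p => rfl
    have hm : Measurable fun p : (Fin n → ℝ) × (Fin d → ℝ) =>
        F (T (WithLp.toLp 2
          ((MeasurableEquiv.sumPiEquivProdPi fun _ : Fin n ⊕ Fin d => ℝ).symm p))) :=
      hF.comp hmp.measurable
    have h2 : (∫⁻ p : (Fin n → ℝ) × (Fin d → ℝ), F (T (WithLp.toLp 2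
          ((MeasurableEquiv.sumPiEquivProdPi fun _ : Fin n ⊕ Fin d => ℝ).symm p)))) =
        ∫⁻ z : Fin d → ℝ, ∫⁻ x : Fin n → ℝ, F (L (WithLp.toLp 2 x) + M (WithLp.toLp 2 z)) := by
      rw [Measure.volume_eq_prod, lintegral_prod_symm _ hm.aemeasurable]
      rfl
    rw [h2]
    rw [← (PiLp.volume_preserving_toLp (Fin d)).lintegral_comp_emb
      (MeasurableEquiv.toLp 2 (Fin d → ℝ)).measurableEmbedding]
    refine lintegral_congr fun z => ?_
    exact (PiLp.volume_preserving_toLp (Fin n)).lintegral_comp_emb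
      (MeasurableEquiv.toLp 2 (Fin n → ℝ)).measurableEmbedding
      (fun x => F (L x + M (WithLp.toLp 2 z)))

theorem cpl : S_CPL := by
  intro ι _ n d L hcard
  set R : Submodule ℝ (Eu ι) := LinearMap.range L.toLinearMap with hR
  have h1 : Module.finrank ℝ R = n := by
    rw [hR, LinearMap.finrank_range_of_inj L.injective, finrank_euclideanSpace, Fintype.card_fin]
  have h2 : Module.finrank ℝ Rᗮ = d := by
    have h3 := R.finrank_add_finrank_orthogonal
    rw [h1, finrank_euclideanSpace, ← hcard] at h3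
    omega
  obtain ⟨e⟩ : Nonempty (Eu (Fin d) ≃ₗᵢ[ℝ] Rᗮ) :=
    ⟨((stdOrthonormalBasis ℝ Rᗮ).reindex (finCongr h2)).repr.symm⟩
  refine ⟨Rᗮ.subtypeₗᵢ.comp e.toLinearIsometry, ⟨?_, hcard⟩⟩
  intro x z
  have hz : (e z : Eu ι) ∈ Rᗮ := (e z).2
  exact (Submodule.mem_orthogonal R _).mp hz (L x) ⟨x, rfl⟩

end Pool.Agent.Y67.FF
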