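import Pool.Agent.H59.L.S8.Y506.FF.Stm

/-!
# Analytic center of a polytope (S_CEN), project FF of helper506
-/

set_option autoImplicit false

namespace Pool.Agent.Y67.FF

open MeasureTheory Pool.Agent.Y506.FF Filter Topology
open scoped ENNReal InnerProductSpace
open Pool.Agent.W695.KH (Eu)

theorem cen : S_CEN := by
  classical
  intro ι _ n v b hbd hint
  set P : Set (Eu (Fin n)) := {x | ∀ i, ⟪v i, x⟫_ℝ ≤ b i} with hP
  obtain ⟨b', hb'⟩ : ∃ b' : ι → ℝ, b' = fun i => if v i = 0 then 1 else b i := ⟨_, rfl⟩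
  have hb0 : ∀ i, v i = 0 → b' i = 1 := by
    intro i hi
    rw [hb']
    simp [hi]
  have hb1 : ∀ i, v i ≠ 0 → b' i = b i := by
    intro i hi
    rw [hb']
    simp [hi]
  have hPne : P.Nonempty := hint.mono interior_subset
  have hP' : ∀ x, x ∈ P ↔ ∀ i, 0 ≤ b' i - ⟪v i, x⟫_ℝ := by
    intro x
    constructor
    · intro hx i
      by_cases hv : v i = 0
      · rw [hb0 i hv, hv, inner_zero_left]
        norm_num
      · rw [hb1 i hv]
        have := hx i
        linarith
    · intro hx i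
      by_cases hv : v i = 0
      · obtain ⟨y, hy⟩ := hPne
        have := hy i
        rw [hv, inner_zero_left] at this ⊢
        exact this
      · have := hx i
        rw [hb1 i hv] at this
        linarith
  have hclosed : IsClosed P := by
    rw [hP, Set.ofPred_forall]
    exact isClosed_iInter fun i => isClosed_le (by fun_prop) continuous_const
  have hcomp : IsCompact P := Metric.isCompact_of_isClosed_isBounded hclosed hbd
  set F : Eu (Fin n) → ℝ := fun x => ∏ i, (b' i - ⟪v i, x⟫_ℝ) with hF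
  have hFc : Continuous F := by
    rw [hF]
    fun_prop
  obtain ⟨x0, hx0P, hx0⟩ := hcomp.exists_isMaxOn hPne hFc.continuousOn
  obtain ⟨y, hy⟩ := hint
  have hypos : ∀ i, 0 < b' i - ⟪v i, y⟫_ℝ := by
    intro i
    by_cases hv : v i = 0
    · rw [hb0 i hv, hv, inner_zero_left]
      norm_num
    · by_contra hc
      rw [hb1 i hv, not_lt] at hc
      have hnhds : P ∈ 𝓝 y := mem_interior_iff_mem_nhds.mp hy
      have hcont : Continuous fun t : ℝ => y + t • v i := by fun_prop
      have h0 : (fun t : ℝ => y + t • v i) ⁻¹' P ∈ 𝓝 (0 : ℝ) := by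
        apply hcont.continuousAt.preimage_mem_nhds
        simpa using hnhds
      obtain ⟨ε, hε, hball⟩ := Metric.mem_nhds_iff.mp h0
      have hmem : (ε / 2) ∈ Metric.ball (0 : ℝ) ε := by
        rw [Metric.mem_ball, dist_zero_right, Real.norm_eq_abs, abs_of_pos (by linarith)]
        linarith
      have h1 : ⟪v i, y + (ε / 2) • v i⟫_ℝ ≤ b i := hball hmem i
      rw [inner_add_right, real_inner_smul_right, real_inner_self_eq_norm_sq] at h1
      have h2 : 0 < ‖v i‖ := norm_pos_iff.mpr hv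
      have h3 : 0 < ε / 2 * ‖v i‖ ^ 2 := by positivity
      linarith
  have hF0 : 0 < F x0 := by
    have h1 : 0 < F y := Finset.prod_pos fun i _ => hypos i
    exact lt_of_lt_of_le h1 (hx0 (interior_subset hy))
  have hl : ∀ i, 0 < b' i - ⟪v i, x0⟫_ℝ := by
    intro i
    have h1 := (hP' x0).mp hx0P i
    refine lt_of_le_of_ne h1 fun h2 => ?_
    have h3 : F x0 = 0 := Finset.prod_eq_zero (Finset.mem_univ i) h2.symm
    linarith
  have hU : ∀ᶠ x in 𝓝 x0, ∀ i, 0 < b' i - ⟪v i, x⟫_ℝ := by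
    rw [Filter.eventually_all]
    intro i
    have hc : Continuous fun x : Eu (Fin n) => b' i - ⟪v i, x⟫_ℝ := by fun_prop
    exact hc.continuousAt.eventually (lt_mem_nhds (hl i))
  -- the sum of the logarithms
  set G : Eu (Fin n) → ℝ := fun x => ∑ i, Real.log (b' i - ⟪v i, x⟫_ℝ) with hG
  have hGF : ∀ x, (∀ i, 0 < b' i - ⟪v i, x⟫_ℝ) → G x = Real.log (F x) := by
    intro x hx
    rw [hG, hF, Real.log_prod fun i _ => (hx i).ne']
  have hmax : IsLocalMax G x0 := by
    filter_upwards [hU] with x hx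
    rw [hGF x hx, hGF x0 hl]
    have hxP : x ∈ P := (hP' x).mpr fun i => (hx i).le
    exact Real.log_le_log (Finset.prod_pos fun i _ => hx i) (hx0 hxP)
  have hder : HasFDerivAt G (∑ i, (b' i - ⟪v i, x0⟫_ℝ)⁻¹ • (-(innerSL ℝ (v i)))) x0 := by
    rw [hG]
    refine HasFDerivAt.fun_sum fun i _ => ?_
    have h1 : HasFDerivAt (fun x : Eu (Fin n) => b' i - ⟪v i, x⟫_ℝ) (-(innerSL ℝ (v i))) x0 := by
      have := (innerSL ℝ (v i)).hasFDerivAt (x := x0)
      exact this.const_sub (b' i)
    exact h1.log (hl i).ne'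
  have hzero : ∑ i, (b' i - ⟪v i, x0⟫_ℝ)⁻¹ • (-(innerSL ℝ (v i))) = 0 := hmax.hasFDerivAt_eq_zero hder
  refine ⟨x0, fun i => -((b' i - ⟪v i, x0⟫_ℝ)⁻¹ • v i), ?_, ?_⟩
  · refine ext_inner_right ℝ fun w => ?_
    rw [inner_zero_left, sum_inner]
    have h1 := congrArg (fun f : Eu (Fin n) →L[ℝ] ℝ => f w) hzero
    simp only [sum_apply, smul_apply, neg_apply, innerSL_apply_apply, zero_apply] at h1
    rw [← h1]
    refine Finset.sum_congr rfl fun i _ => ?_
    rw [inner_neg_left, real_inner_smul_left, smul_eq_mul]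
    ring
  · ext x
    rw [hP' x, Set.mem_ofPred_eq]
    refine forall_congr' fun i => ?_
    have h1 : 1 + ⟪-((b' i - ⟪v i, x0⟫_ℝ)⁻¹ • v i), x - x0⟫_ℝ =
        (b' i - ⟪v i, x0⟫_ℝ)⁻¹ * (b' i - ⟪v i, x⟫_ℝ) := by
      rw [inner_neg_left, real_inner_smul_left, inner_sub_right]
      have := (hl i).ne'
      field_simp
      ring
    rw [h1]
    have h2 : 0 < (b' i - ⟪v i, x0⟫_ℝ)⁻¹ := inv_pos.mpr (hl i)
    constructor
    · intro h
      positivity
    · intro h
      exact nonneg_of_mul_nonneg_right h h2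

end Pool.Agent.Y67.FF
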